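import Mathlib
import Pool.Agent.Helper58K9.ET.Acc
import Pool.Agent.Helper58K9.ET.Dens
import Pool.Agent.Helper58K9.ET.Down
import Pool.Agent.Helper58K9.ET.Up
import Pool.Agent.Helper58K9.ET.Extd
import Pool.Agent.Helper58K9.ET.Appr
import Pool.Agent.Helper58K9.ET.Chg
import Pool.Agent.Helper58K9.ET.Refl

/-!
# The ACC for minimal log discrepancies, for all singularities which are étale locally general
arrangement varieties

A general arrangement variety `Y` with the attractive fixed point `P`: an affine variety of dimension
`d = c + n` with the action of a torus of dimension `n`, of any complexity `c ≥ 1`, such that the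
rational quotient by the torus is `ℙ^c` and the critical divisor is contained in the union of any
number of hyperplanes in general position. We assume that `Y` is of klt type, and `B'` is an invariant
boundary with coefficients in `Γ` (for `c ≥ 2` supported on the horizontal divisors and over these
hyperplanes: by `IsEq` the local equation of `K_Y + B'` is a real character).

`(X ∋ x, B)`: any pair and any closed point, `K_X + B` is `ℝ`-Cartier, such that `(X, B)` is at `x`
étale locally isomorphic to a pair `(Y, B')` at `P`: there is a variety `U` with étale morphisms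
`U → X` and `U → Y` and a closed point of `U` over `x` and `P`, such that the pull-backs to `U` of
`K_X + B` and of `K_Y + B'` agree. Nothing is assumed about a torus action on `X`.

Theorem: for every `d` and every DCC set `Γ` the set of the minimal log discrepancies `m ≥ 0` of these
pairs `(X ∋ x, B)` satisfies the ascending chain condition.

By Luna's slice theorem (this is not part of the Lean file) these are all closed points of all normal
varieties of dimension `d ≥ 2` with a torus action of complexity one, of klt type, with all invariant
boundaries. (At a closed point the slice is, étale locally, either toric or a rational variety with a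
torus action of complexity one and an attractive fixed point. A toric germ of dimension at least two
is a general arrangement variety with `c = 1` and two points on `ℙ^1`.)

All definitions are in `Pool.Agent.Helper58K9.ET.Acc` (`etMlds`), `Pool.Agent.Helper58K9.ET.Defs`
(`Etale`, `Etale.im`, `OverPt`, `Ext`, `ordE`, `Common`), `Pool.Agent.Helper58K9.AR.Defs` (`Fan`,
`vl`, `Fan.val`, `Fan.Mem`, `Fan.IsCone`, `lf`, `ch`, `ArrGerm`, `ArrGerm.l`, `IsEq`, `KltType`,
`arrMlds`) and in the starting files `H436R3.Fol.Defs`, `H436R3.KT.Defs`, `W497.Mld.Defs`
(valuations, `Foliation`, `IsCanOrd`, `AffVar`, `Pt`, `EffDiv`, `LocEq`, `IsOverGerm`, `IsLogDisc`,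
`IsMld`, `CoeffIn`) and `TH165.ACC.Lau`, `TH165.ACC.Main` (`pr`, `IsDCC`, `IsACC`).
-/

set_option autoImplicit false

namespace Pool.Agent.Results.MP_df5e61_ag.ArrangementSingularities

open Pool.Agent.H436R3.KT Pool.Agent.W497.Mld Pool.Agent.Helper58K9.AR Pool.Agent.Helper58K9.ET

/-- The class contains the general arrangement varieties themselves, with the fixed point. -/
theorem arr_mem {c n : ℕ} (hc : 0 < c) {Γ : Set ℝ} {K : Type} [Field K] [Algebra ℂ K]
    (g : ArrGerm c n K) (hk : KltType g) (B : EffDiv g.X) (hB : CoeffIn B Γ) (u : Fin n → ℝ)
    (η : Fin g.F.q → ℝ) (E : ∀ y : Pt g.X, LocEq B y) (hE : ∀ y, IsEq g (E y) u η) (m : ℝ)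
    (hm0 : 0 ≤ m) (hm : Pool.Agent.W497.Mld.IsMld (E g.P) m) : m ∈ etMlds (c + n) Γ :=
  ⟨hm0, K, inferInstance, inferInstance, g.X, B, E, g.P, ⟨c, n, hc, rfl, K, inferInstance,
    inferInstance, g, hk, B, hB, u, η, E, hE, common_refl E g.P⟩, hm⟩

/-- **The ACC for the minimal log discrepancies at all closed points** which are étale locally
general arrangement varieties of klt type, of dimension `d`, with invariant boundaries. -/
theorem result (d : ℕ) (Γ : Set ℝ) (hΓ : Pool.Agent.TH165.ACC.IsDCC Γ) :
    Pool.Agent.TH165.ACC.IsACC (etMlds d Γ) := by
  have h := arr_acc' d Γ hΓ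
  have hsub := etMlds_sub up (down dens frac) dens (extd frac) appr chg d Γ
  intro x hmono hx
  exact h x hmono fun n => hsub (hx n)

end Pool.Agent.Results.MP_df5e61_ag.ArrangementSingularities
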