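import Mathlib
import Pool.Agent.Helper43K9.CI.Asm
import Pool.Agent.Helper43K9.CI.Step
import Pool.Agent.Helper43K9.CI.Bk
import Pool.Agent.Helper43K9.CI.Lim
import Pool.Agent.Helper43K9.CI.Lead
import Pool.Agent.Helper43K9.CI.Inn
import Pool.Agent.Helper43K9.CI.Evh
import Pool.Agent.Helper43K9.CI.Cot
import Pool.Agent.Helper43K9.CI.Trd
import Pool.Agent.Helper43K9.CI.Prm
import Pool.Agent.Helper43K9.CI.Idx
import Pool.Agent.Helper43K9.CI.Red
import Pool.Agent.Helper43K9.CI.Open
import Pool.Agent.Helper43K9.CI.Pnt

/-!
# The ACC for minimal log discrepancies of nondegenerate complete intersection germs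

`Y ∋ P`: an affine toric variety of dimension `d + r` with a fixed point, given by any strictly
convex rational cone of dimension `d + r` (simplicial or not). `X ⊂ Y`: a subvariety through `P` of
codimension `r ≥ 2`, the closure of the zero set `{F_1 = ... = F_r = 0}` in the torus of Laurent
polynomials `F_j` which generate a prime ideal, nondegenerate at `P`: for all weights `w` in the
interior of the cone the zero set in the torus of the initial forms of `F_1, ..., F_r` is smooth of
codimension `r`, or empty (Khovanskii). `∑ β_i D_i`: a toric boundary on `Y` with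
`K_Y + X_1 + ... + X_r + ∑ β_i D_i` `ℝ`-Cartier at `P`, where `X_j` is the closure of `{F_j = 0}`,
and `B` the boundary on `X` with `K_X + B = (K_Y + X_1 + ... + X_r + ∑ β_i D_i)|_X`. The pair
`(Y, X_1 + ... + X_r + ∑ β_i D_i)` is assumed to be log canonical for the toric valuations with
centre `P`, and klt in the same sense for some boundary `∑ β_i' D_i`, uniformly; `X` is normal.

Theorem: for all `d`, `r ≥ 2` and every DCC set `Γ` the set of the minimal log discrepancies at `P`,
taken over all prime divisors over `X` with centre `P`, of these pairs with `β_i ∈ Γ ∪ {0}`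
satisfies the ascending chain condition.

The proof shows that the minimal log discrepancy of `(X ∋ P, B)` is the least value of
`ψ · w - φ_1 (w) - ... - φ_r (w)` at the lattice points `w` in the interior of the cone (`formula` in
`Pool.Agent.Helper43K9.CI.Asm`), where `y^(-ψ)` is the local equation of
`K_Y + X_1 + ... + X_r + ∑ β_i D_i` and `φ_j (w)` is the least weight of a monomial of `F_j`.
-/

set_option autoImplicit false

namespace Pool.Agent.Results.MP_df5e61_ag.NondegCompleteIntersections

open Pool.Agent.TH165.ACC Pool.Agent.W497.Mld Pool.Agent.H436R3.KT Pool.Agent.Helper43K9.CI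

/-- The minimal log discrepancies of the pairs `(X ∋ P, B)`, where `X` is a normal nondegenerate
complete intersection of dimension `d` and codimension `r` of klt type in a toric germ `Y ∋ P`, and
`K_X + B` is the restriction of `K_Y + X_1 + ... + X_r + ∑ β_i D_i`, log canonical for the toric
valuations over `P`, with `β_i ∈ Γ` or `β_i = 0` for all the toric prime divisors `D_i` of `Y`. -/
def ciMlds (d r : ℕ) (Γ : Set ℝ) : Set ℝ :=
  {m : ℝ | ∃ (L : Type) (_ : Field L) (_ : Algebra ℂ L) (g : CIGerm r d L) (b : Bd g)
    (B : EffDiv g.X) (e : LocEq B g.P), IsNormal g.X ∧ KltType g ∧ LcType b ∧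
      (∀ i, b.β i ≠ 0 → b.β i ∈ Γ) ∧ IsRestr b e ∧ Pool.Agent.W497.Mld.IsMld e m}

/-- **The ACC for minimal log discrepancies of nondegenerate complete intersection germs.** -/
theorem result (d r : ℕ) (hr : 2 ≤ r) (Γ : Set ℝ) (hΓ : Pool.Agent.TH165.ACC.IsDCC Γ) :
    IsACC (ciMlds d r Γ) := by
  intro u hu hmem
  refine acc_union (N := d + r) (S := fun k => {a | ∃ s, a ∈ mldsR k s (insert 1 Γ)})
    (fun k _ => acc (Pool.Agent.Helper43K9.NH.dcc_insert hΓ)) u hu fun k => ?_
  obtain ⟨L, i1, i2, g, b, B, e, -, hk, hl, hb, hr', hm⟩ := hmem k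
  exact mem_comb step (bk opn red lim) lead_ inn (div lim evh cot trd prm) (top idx low) low pnt
    (by omega) hk b hl hr' hb hm

end Pool.Agent.Results.MP_df5e61_ag.NondegCompleteIntersections
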