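import Mathlib
import Pool.Agent.Helper43K9.NH.Asm

/-!
# The ACC for minimal log discrepancies of nondegenerate hypersurface germs

`Y ∋ P`: an affine toric variety of dimension `d + 1` with a fixed point, given by any strictly
convex rational cone of dimension `d + 1` (simplicial or not). `X ⊂ Y`: a hypersurface through `P`,
the closure of the zero set in the torus of an irreducible Laurent polynomial `F`, nondegenerate at
`P`: for all weights `w` in the interior of the cone the zero set in the torus of the initial form of
`F` is smooth (Khovanskii, Kouchnirenko). For example, if the cone is simplicial then these are the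
nondegenerate hyperquotients `{F = 0} / G`, `F` semiinvariant, `G` a finite diagonal group.
`∑ β_i D_i`: a toric boundary on `Y` with `K_Y + X + ∑ β_i D_i` `ℝ`-Cartier at `P`, and `B` the
boundary on `X` with `K_X + B = (K_Y + X + ∑ β_i D_i)|_X`. The variety `X` is assumed to be normal and
of klt type (`(X, B')` is klt for some `B'` of this kind); the pair `(X, B)` is only assumed to have a
minimal log discrepancy `m ≥ 0` at `P`, taken over all prime divisors over `X` with centre `P`.

Theorem: for every `d` and every DCC set `Γ` the set of the minimal log discrepancies `m ≥ 0` of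
these pairs with `β_i ∈ Γ ∪ {0}` satisfies the ascending chain condition.

The proof shows that the minimal log discrepancy of `(X ∋ P, B)` is the least value of
`ψ · w - φ (w)` at the lattice points `w` in the interior of the cone (`formula` in
`Pool.Agent.Helper43K9.NH.Asm`), where `y^(-ψ)` is the local equation of `K_Y + X + ∑ β_i D_i` and
`φ (w)` is the least weight of a monomial of `F`.
-/

set_option autoImplicit false

namespace Pool.Agent.Results.MP_df5e61_ag.NondegHypersurfaces

open Pool.Agent.TH165.ACC Pool.Agent.W497.Mld Pool.Agent.H436R3.KT Pool.Agent.Helper43K9.NH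

/-- The minimal log discrepancies `m ≥ 0` of the pairs `(X ∋ P, B)`, where `X` is a normal
nondegenerate hypersurface of dimension `d` of klt type in a toric germ `Y ∋ P` of dimension `d + 1`,
and `K_X + B` is the restriction of `K_Y + X + ∑ β_i D_i`, with `β_i ∈ Γ` or `β_i = 0` for all the
toric prime divisors `D_i` of `Y`. -/
def hypMlds (d : ℕ) (Γ : Set ℝ) : Set ℝ :=
  {m : ℝ | 0 ≤ m ∧ ∃ (L : Type) (_ : Field L) (_ : Algebra ℂ L) (g : HypGerm d L) (b : Bd g)
    (B : EffDiv g.X) (e : LocEq B g.P), IsNormal g.X ∧ KltType g ∧ (∀ i, b.β i ≠ 0 → b.β i ∈ Γ) ∧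
      IsRestr b e ∧ Pool.Agent.W497.Mld.IsMld e m}

/-- **The ACC for minimal log discrepancies of nondegenerate hypersurface germs.** -/
theorem result (d : ℕ) (Γ : Set ℝ) (hΓ : Pool.Agent.TH165.ACC.IsDCC Γ) :
    IsACC (hypMlds d Γ) := by
  intro u hu hmem
  refine acc_union (N := d + 1) (S := fun k => {a | ∃ r, a ∈ mldsR k r (insert 1 Γ)})
    (fun k _ => acc (dcc_insert hΓ)) u hu fun k => ?_
  obtain ⟨h0, L, i1, i2, g, b, B, e, -, hk, hb, hr, hm⟩ := hmem k
  exact mem_comb hk b hr hb h0 hm

end Pool.Agent.Results.MP_df5e61_ag.NondegHypersurfaces
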