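import Mathlib
import Pool.Agent.Helper58K9.QT.Final

/-!
# The ACC for minimal log discrepancies of toric quotient singularities

`T ∋ O`: an affine toric variety of dimension `n` with a fixed point, given by any strictly convex
rational cone of dimension `n` (simplicial or not). `G`: a finite group which acts on `T` and fixes
`O`. `X ∋ P`: the quotient `(T ∋ O) / G`, with the quotient map `π`. `B`: an effective `ℝ`-divisor on
`X` such that `K_X + B` is `ℝ`-Cartier at `P`, and `K_T + B_T = π^* (K_X + B)`. It is assumed that for
every `γ ∈ G` there is a torus, normalised by `γ`, which makes `T ∋ O` a toric germ and leaves `B_T`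
invariant (the torus may depend on `γ`), and that `B_T` has no component in common with the
ramification divisor of `π`. This holds, for instance, for the quotients of affine toric germs by
finite groups of monomial automorphisms, and for the quotients `ℂ^n / G` by finite linear groups,
if `G` acts freely in codimension one and `B = 0`.

The minimal log discrepancy is taken over all prime divisors over `X` with centre `P`. All definitions
are in `Pool.Agent.Helper58K9.QT.Defs` (`Over`, `IsQuotient`, `IsToricFor`, `IsToricQuotient`,
`quotMlds`) and in the starting files `H436R3.Fol.Defs`, `H436R3.KT.Defs`, `W497.Mld.Defs`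
(valuations, `AffVar`, `EffDiv`, `LocEq`, `IsMld`, `CoeffIn`) and `TH165.ACC.Germ`, `TH165.ACC.Main`
(`ToricGerm`, `IsDCC`, `IsACC`).

Theorem: for every `n` and every DCC set `Γ` the set of the minimal log discrepancies `m ≥ 0` of
these pairs with coefficients in `Γ` satisfies the ascending chain condition.
-/

set_option autoImplicit false

namespace Pool.Agent.Results.MP_df5e61_ag.ToricQuotients

open Pool.Agent.TH165.ACC Pool.Agent.W497.Mld Pool.Agent.H436R3.KT Pool.Agent.H436R3.Fol
  Pool.Agent.Helper58K9.QT

/-- The class contains all toric germs with toric boundaries (`G` is trivial). -/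
theorem toric_mem {n : ℕ} {K : Type} [Field K] [Algebra ℂ K]
    [Algebra (MvPolynomial (Fin n) ℂ) K] [IsFractionRing (MvPolynomial (Fin n) ℂ) K]
    [IsScalarTower ℂ (MvPolynomial (Fin n) ℂ) K] (g : ToricGerm n K) (B : EffDiv g.X)
    (hB : ∀ v, IsLocalRing' g.X.R v → B.mult v ≠ 0 → IsMonomial n v) :
    IsToricQuotient n g.X g.P B := by
  have h1 : ∀ γ : K ≃ₐ[K] K, ∀ f, γ f = f := fun γ f => γ.commutes f
  have hmult : ∀ v w : DVal K, (∀ f : K, f ≠ 0 → v.ord f = w.ord f) → B.mult v = B.mult w := by
    classical
    intro v w h
    simp only [EffDiv.mult]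
    refine Finset.sum_congr rfl fun j _ => ?_
    congr 1
    apply propext
    constructor
    · intro h' f hf
      rw [← h f hf]
      exact h' f hf
    · intro h' f hf
      rw [h f hf]
      exact h' f hf
  refine ⟨K, inferInstance, inferInstance, Algebra.id K, inferInstance, g.X.R, g.P,
    { fin := inferInstance
      gal := inferInstance
      inv := fun γ f hf => by rwa [h1]
      fix := fun γ f f' h => by
        rw [h1] at h
        rw [Subtype.ext h]
      quot := fun f => Iff.rfl
      pt := fun f f' h => by
        rw [Subtype.ext (h : (f' : K) = f)] }, fun γ => ?_⟩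
  refine ⟨inferInstance, inferInstance, inferInstance, g, rfl, fun f f' h => ?_, fun m => ?_,
    fun w v e hw hov => ?_⟩
  · rw [Subtype.ext h]
  · exact ⟨1, m, by rw [h1, map_one, one_mul]⟩
  · have h2 : ∀ f : K, f ≠ 0 → w.ord f = e * v.ord f := hov.2
    have he : e = 1 := by
      obtain ⟨f, hf, hf1⟩ := w.surj
      have h3 := h2 f hf
      rw [hf1] at h3
      exact Int.eq_one_of_mul_eq_one_right hov.1.le h3.symm
    subst he
    by_cases h0 : B.mult v = 0
    · left
      rw [h0]
      norm_num
    · right
      have h4 : B.mult w = B.mult v := hmult w v fun f hf => by rw [h2 f hf, one_mul]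
      exact ⟨hB w hw (by rw [h4]; exact h0), rfl⟩

/-- **The ACC for minimal log discrepancies of toric quotient singularities.** -/
theorem result (n : ℕ) (Γ : Set ℝ) (hΓ : Pool.Agent.TH165.ACC.IsDCC Γ) :
    IsACC (quotMlds n Γ) :=
  quot_acc n hΓ

end Pool.Agent.Results.MP_df5e61_ag.ToricQuotients
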